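import Pool.Agent.H520Z.EqProof

set_option autoImplicit false

namespace Pool.Agent.Results.MP_59918e_co.ACounterexample

open Pool.Agent.H520Z.Equi

/-- There is a finite simple graph that is equistable but not weakly CIS. -/
theorem result : ∃ G : SimpleGraph (Fin 14), Equistable G ∧ ¬ WeaklyCIS G :=
  ⟨G, equistable, not_weaklyCIS⟩

end Pool.Agent.Results.MP_59918e_co.ACounterexample
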